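import Pool.Agent.Lib_helper41.TK.Defs
import Pool.Agent.Lib_helper68.KSLF.HIR

/-! TK, block GB. -/

set_option autoImplicit false

namespace Pool.Agent.TK

open Pool.Agent.LEV Pool.Agent.LVB Pool.Agent.KSL
open Pool.Agent.LK (PQ)
open Pool.Agent.FG61 (mu phi cc ff AA Lam)
open Complex MeasureTheory Filter Topology UpperHalfPlane ModularGroup ProbabilityTheory
open scoped MatrixGroups Modular ENNReal ModularForm ComplexConjugate ContDiff

section
variable {N : ℕ} [Fact N.Prime]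

/-- the upper parts of the half lines -/
theorem ghigh_eq {T : ℝ} {ρ : ℝ → ℝ} (hρ : Ker T ρ) (f : S2 N) (Q : ℕ) (w : ℕ → ℕ → ℂ) {y : ℝ}
    (hy : 0 < y) :
    ∑ c ∈ Finset.Icc 1 Q, ∑ j ∈ RR c, w c j *
      (∫ t : ℝ, (ρ t : ℂ) * Psi f ((j : ℝ) / c + t * y) y) =
    ∑' n : ℕ, co f n / (2 * Real.pi * n) *
      ((Real.exp (-2 * Real.pi * n * y) * sgm ρ (n * y) : ℝ) : ℂ) * gT Q w 0 n := by
  have h1 : HasSum (fun n : ℕ => ∑ c ∈ Finset.Icc 1 Q, ∑ j ∈ RR c, w c j *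
      (co f n * (Real.exp (-2 * Real.pi * n * y) / (2 * Real.pi * n) : ℝ) *
      (GEL_e n ((j : ℝ) / c) * ((sgm ρ (n * y) : ℝ) : ℂ))))
      (∑ c ∈ Finset.Icc 1 Q, ∑ j ∈ RR c, w c j *
      (∫ t : ℝ, (ρ t : ℂ) * Psi f ((j : ℝ) / c + t * y) y)) :=
    hasSum_sum fun c _ => hasSum_sum fun j _ => (hir_psi hρ f _ hy).mul_left _
  rw [← h1.tsum_eq]
  refine tsum_congr fun n => ?_
  have h0 : (Finset.Icc 1 Q).filter (fun c : ℕ => (0 : ℝ) < c) = Finset.Icc 1 Q := by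
    refine Finset.filter_true_of_mem fun c hc => ?_
    have := (Finset.mem_Icc.1 hc).1
    exact_mod_cast this
  rw [gT, h0, Finset.mul_sum]
  refine Finset.sum_congr rfl fun c _ => ?_
  rw [Finset.mul_sum]
  refine Finset.sum_congr rfl fun j _ => ?_
  unfold GEL_e
  push_cast
  ring

end

end Pool.Agent.TK
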